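import Pool.Agent.Helper60.PlzA.Goals

/-!
# Packet PLA STARF
-/

set_option autoImplicit false

namespace Pool.Agent.Helper19.PlzA

open Finset Pool.Agent.Helper93.Plz Pool.Agent.Helper60.PlzA

open scoped Classical

/-! ### marginals -/

theorem extend_invol {k L : ℕ} {S : Type} (j : Fin k → Fin L) (hj : Function.Injective j) :
    Function.Involutive (fun p : (Fin L → S) × (Fin k → S) => ((Function.extend j p.2 p.1, p.1 ∘ j) :
      (Fin L → S) × (Fin k → S))) := by
  rintro ⟨f, g⟩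
  refine Prod.ext ?_ ?_
  · funext i
    show Function.extend j (f ∘ j) (Function.extend j g f) i = f i
    by_cases h : ∃ a, j a = i
    · obtain ⟨a, rfl⟩ := h
      rw [hj.extend_apply]; rfl
    · rw [Function.extend_apply' _ _ _ h, Function.extend_apply' _ _ _ h]
  · funext a
    show Function.extend j g f (j a) = g a
    rw [hj.extend_apply]

theorem marg {k L : ℕ} {S : Type} [Fintype S] (j : Fin k → Fin L) (hj : Function.Injective j)
    (h : (Fin k → S) → ℝ) :
    (Fintype.card S : ℝ) ^ k * ∑ f : Fin L → S, h (f ∘ j) = (Fintype.card S : ℝ) ^ L * ∑ g : Fin k → S, h g := by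
  have e := Equiv.sum_comp ((extend_invol (S := S) j hj).toPerm _) (fun p : (Fin L → S) × (Fin k → S) => h p.2)
  have e1 : (∑ p : (Fin L → S) × (Fin k → S), h p.2) = (Fintype.card S : ℝ) ^ L * ∑ g : Fin k → S, h g := by
    rw [Fintype.sum_prod_type]
    simp only [Finset.sum_const, Finset.card_univ, Fintype.card_fun, Fintype.card_fin, nsmul_eq_mul, Nat.cast_pow]
  have e2 : (∑ p : (Fin L → S) × (Fin k → S), h (((extend_invol (S := S) j hj).toPerm _) p).2) =
      (Fintype.card S : ℝ) ^ k * ∑ f : Fin L → S, h (f ∘ j) := by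
    rw [Fintype.sum_prod_type_right]
    simp only [Function.Involutive.coe_toPerm, Finset.sum_const, Finset.card_univ, Fintype.card_fun,
      Fintype.card_fin, nsmul_eq_mul, Nat.cast_pow]
  rw [← e1, ← e2, e]

/-- the number of functions with `f ∘ j` in a given set -/
theorem marg_card {k L : ℕ} {S : Type} [Fintype S] (j : Fin k → Fin L) (hj : Function.Injective j)
    (P : (Fin k → S) → Prop) (P' : (Fin L → S) → Prop) (hP : ∀ f, P' f ↔ P (f ∘ j)) [DecidablePred P]
    [DecidablePred P'] :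
    (Fintype.card S : ℝ) ^ k * ((univ.filter P').card : ℝ) =
      (Fintype.card S : ℝ) ^ L * ((univ.filter P).card : ℝ) := by
  have := marg j hj (fun g => if P g then (1 : ℝ) else 0)
  rw [Finset.sum_boole, Finset.sum_boole] at this
  have e : (univ.filter P') = univ.filter fun f : Fin L → S => P (f ∘ j) := by
    ext f
    simp only [mem_filter, mem_univ, true_and, hP]
  rw [e]
  exact this

/-! ### bounds for `Psi` -/

theorem ind01 {S : Type} (r : S → S → Prop) (a b : S) : Ind r a b = 0 ∨ Ind r a b = 1 := by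
  unfold Ind; split <;> simp

theorem psi_bd {S : Type} (r : S → S → Prop) (g : Fin 6 → S) : -1 ≤ Psi r g ∧ Psi r g ≤ 1 := by
  unfold Psi
  rcases ind01 r (g 0) (g 1) with h1 | h1 <;> rcases ind01 r (g 0) (g 2) with h2 | h2 <;>
    rcases ind01 r (g 0) (g 3) with h3 | h3 <;> rcases ind01 r (g 0) (g 4) with h4 | h4 <;>
    rcases ind01 r (g 0) (g 5) with h5 | h5 <;> rcases ind01 r (g 4) (g 5) with h6 | h6 <;>
    rw [h1, h2, h3, h4, h5, h6] <;> norm_num

/-- the relation on indices -/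
def RL {S : Type} {L : ℕ} (r : S → S → Prop) (f : Fin L → S) (a b : Fin L) : Prop := a = b ∨ r (f a) (f b)

theorem ind_RL {S : Type} {L : ℕ} (r : S → S → Prop) (f : Fin L → S) {a b : Fin L} (h : a ≠ b) :
    Ind (RL r f) a b = Ind r (f a) (f b) := by
  unfold Ind RL
  simp [h]

theorem psi_RL {S : Type} {L : ℕ} (r : S → S → Prop) (f : Fin L → S) {ι : Fin 6 → Fin L}
    (h : Function.Injective ι) : Psi (RL r f) ι = Psi r (f ∘ ι) := by
  unfold Psi
  rw [ind_RL r f (h.ne (by decide)), ind_RL r f (h.ne (by decide)), ind_RL r f (h.ne (by decide)),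
    ind_RL r f (h.ne (by decide)), ind_RL r f (h.ne (by decide)), ind_RL r f (h.ne (by decide))]
  rfl

/-- not injective functions -/
theorem not_inj_card (L : ℕ) (hL : 1 ≤ L) :
    ((univ.filter fun ι : Fin 6 → Fin L => ¬ Function.Injective ι).card : ℝ) ≤ 15 * (L : ℝ) ^ 5 := by
  have hL0 : (0 : ℝ) < L := by exact_mod_cast hL
  set Pr : Finset (Fin 6 × Fin 6) := univ.filter fun p => p.1 < p.2 with hPr
  have hPc : Pr.card = 15 := by rw [hPr]; decide
  have hsub : (univ.filter fun ι : Fin 6 → Fin L => ¬ Function.Injective ι) ⊆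
      Pr.biUnion fun p => univ.filter fun ι : Fin 6 → Fin L => ι p.1 = ι p.2 := by
    intro ι hι
    rw [mem_filter] at hι
    have h := hι.2
    rw [Function.Injective] at h
    push Not at h
    obtain ⟨a, b, hab, hne⟩ := h
    rw [mem_biUnion]
    rcases lt_or_gt_of_ne hne with h | h
    · exact ⟨(a, b), by simp [hPr, h], by simp [hab]⟩
    · exact ⟨(b, a), by simp [hPr, h], by simp [hab]⟩
  have hc : ∀ p ∈ Pr, ((univ.filter fun ι : Fin 6 → Fin L => ι p.1 = ι p.2).card : ℝ) = (L : ℝ) ^ 5 := by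
    intro p hp
    have hlt : p.1 < p.2 := by rw [hPr, mem_filter] at hp; exact hp.2
    have hinj : Function.Injective (![p.1, p.2] : Fin 2 → Fin 6) := by
      intro x y hxy
      fin_cases x <;> fin_cases y <;> simp at hxy ⊢
      · exact absurd hxy hlt.ne
      · exact absurd hxy hlt.ne'
    have h1 := marg_card (k := 2) (L := 6) (S := Fin L) ![p.1, p.2] hinj (fun g => g 0 = g 1)
      (fun ι => ι p.1 = ι p.2) (fun f => Iff.rfl)
    have h2 : ((univ.filter fun g : Fin 2 → Fin L => g 0 = g 1).card : ℝ) = L := by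
      have : (univ.filter fun g : Fin 2 → Fin L => g 0 = g 1) = univ.image (fun x : Fin L => ![x, x]) := by
        ext g
        simp only [mem_filter, mem_univ, true_and, mem_image]
        constructor
        · intro h
          refine ⟨g 0, ?_⟩
          funext i
          fin_cases i
          · rfl
          · exact h
        · rintro ⟨x, rfl⟩
          rfl
      rw [this, card_image_of_injective _ (fun x y h => by simpa using congrFun h 0), card_univ, Fintype.card_fin]
    rw [h2] at h1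
    simp only [Fintype.card_fin] at h1
    have h3 : (L : ℝ) ^ 2 * ((univ.filter fun ι : Fin 6 → Fin L => ι p.1 = ι p.2).card : ℝ) = (L : ℝ) ^ 2 * (L : ℝ) ^ 5 := by
      rw [h1]; ring
    exact mul_left_cancel₀ (by positivity) h3
  calc ((univ.filter fun ι : Fin 6 → Fin L => ¬ Function.Injective ι).card : ℝ)
      ≤ ((Pr.biUnion fun p => univ.filter fun ι : Fin 6 → Fin L => ι p.1 = ι p.2).card : ℝ) := by
        exact_mod_cast card_le_card hsub
    _ ≤ ∑ p ∈ Pr, ((univ.filter fun ι : Fin 6 → Fin L => ι p.1 = ι p.2).card : ℝ) := by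
        exact_mod_cast card_biUnion_le
    _ = ∑ p ∈ Pr, (L : ℝ) ^ 5 := sum_congr rfl hc
    _ = 15 * (L : ℝ) ^ 5 := by rw [sum_const, hPc, nsmul_eq_mul]; norm_num

/-- functions for which the relation is not transitive -/
theorem bad_card {S : Type} [Fintype S] [Nonempty S] (r : S → S → Prop) (hs : ∀ a b, r a b → r b a) (L : ℕ) :
    (Fintype.card S : ℝ) ^ 3 * ((univ.filter fun f : Fin L → S => ¬ Equivalence (RL r f)).card : ℝ) ≤
      (L : ℝ) ^ 3 * ((Fintype.card S : ℝ) ^ L * ((P3 r : ℝ) + (Fintype.card S : ℝ) ^ 2)) := by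
  set Tr : Finset (Fin L × Fin L × Fin L) := univ.filter fun q => q.1 ≠ q.2.1 ∧ q.2.1 ≠ q.2.2 ∧ q.1 ≠ q.2.2 with hTr
  set X : (Fin 3 → S) → Prop := fun g => (r (g 0) (g 1) ∧ r (g 1) (g 2) ∧ g 0 ≠ g 2 ∧ ¬ r (g 0) (g 2)) ∨ g 0 = g 2
    with hX
  have hsub : (univ.filter fun f : Fin L → S => ¬ Equivalence (RL r f)) ⊆
      Tr.biUnion fun q => univ.filter fun f : Fin L → S => X (f ∘ ![q.1, q.2.1, q.2.2]) := by
    intro f hf
    rw [mem_filter] at hf
    have h : ∃ a b c, RL r f a b ∧ RL r f b c ∧ ¬ RL r f a c := by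
      by_contra hcon
      push Not at hcon
      exact hf.2 ⟨fun a => Or.inl rfl, fun {a b} hab => by
        rcases hab with h | h
        · exact Or.inl h.symm
        · exact Or.inr (hs _ _ h), fun {a b c} hab hbc => hcon a b c hab hbc⟩
    obtain ⟨a, b, c, hab, hbc, hac⟩ := h
    have n1 : a ≠ b := fun h => hac (h ▸ hbc)
    have n2 : b ≠ c := fun h => hac (h ▸ hab)
    have n3 : a ≠ c := fun h => hac (Or.inl h)
    have r1 : r (f a) (f b) := hab.resolve_left n1
    have r2 : r (f b) (f c) := hbc.resolve_left n2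
    have r3 : ¬ r (f a) (f c) := fun h => hac (Or.inr h)
    rw [mem_biUnion]
    refine ⟨(a, b, c), by simp [hTr, n1, n2, n3], ?_⟩
    rw [mem_filter]
    refine ⟨mem_univ _, ?_⟩
    by_cases h : f a = f c
    · exact Or.inr h
    · exact Or.inl ⟨r1, r2, h, r3⟩
  have hXc : ((univ.filter fun g : Fin 3 → S => X g).card : ℝ) ≤ (P3 r : ℝ) + (Fintype.card S : ℝ) ^ 2 := by
    have h1 : (univ.filter fun g : Fin 3 → S => X g) ⊆
        ((univ.filter fun q : S × S × S => r q.1 q.2.1 ∧ r q.2.1 q.2.2 ∧ q.1 ≠ q.2.2 ∧ ¬ r q.1 q.2.2).image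
          fun q => ![q.1, q.2.1, q.2.2]) ∪ (univ : Finset (S × S)).image fun q => ![q.1, q.2, q.1] := by
      intro g hg
      rw [mem_filter] at hg
      rw [mem_union]
      rcases hg.2 with h | h
      · left
        rw [mem_image]
        refine ⟨(g 0, g 1, g 2), by simpa using h, ?_⟩
        funext i
        fin_cases i <;> rfl
      · right
        rw [mem_image]
        refine ⟨(g 0, g 1), mem_univ _, ?_⟩
        funext i
        fin_cases i
        · rfl
        · rfl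
        · exact h
    have h2 := (card_le_card h1).trans (card_union_le _ _)
    have h3 : ((univ.filter fun q : S × S × S => r q.1 q.2.1 ∧ r q.2.1 q.2.2 ∧ q.1 ≠ q.2.2 ∧ ¬ r q.1 q.2.2).image
          fun q => ![q.1, q.2.1, q.2.2]).card ≤ P3 r := card_image_le
    have h4 : ((univ : Finset (S × S)).image fun q => ![q.1, q.2, q.1]).card ≤ Fintype.card S ^ 2 := by
      refine card_image_le.trans ?_
      rw [card_univ, Fintype.card_prod, pow_two]
    have h5 := h2.trans (add_le_add h3 h4)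
    exact_mod_cast h5
  have hc : ∀ q ∈ Tr, (Fintype.card S : ℝ) ^ 3 *
      ((univ.filter fun f : Fin L → S => X (f ∘ ![q.1, q.2.1, q.2.2])).card : ℝ) ≤
        (Fintype.card S : ℝ) ^ L * ((P3 r : ℝ) + (Fintype.card S : ℝ) ^ 2) := by
    intro q hq
    rw [hTr, mem_filter] at hq
    obtain ⟨-, n1, n2, n3⟩ := hq
    have hinj : Function.Injective (![q.1, q.2.1, q.2.2] : Fin 3 → Fin L) := by
      intro x y hxy
      fin_cases x <;> fin_cases y <;> simp at hxy ⊢
      · exact absurd hxy n1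
      · exact absurd hxy n3
      · exact absurd hxy.symm n1
      · exact absurd hxy n2
      · exact absurd hxy.symm n3
      · exact absurd hxy.symm n2
    have h9 := marg_card (k := 3) (L := L) (S := S) _ hinj X (fun f => X (f ∘ ![q.1, q.2.1, q.2.2])) (fun f => Iff.rfl)
    rw [h9]
    exact mul_le_mul_of_nonneg_left hXc (by positivity)
  have hTc : (Tr.card : ℝ) ≤ (L : ℝ) ^ 3 := by
    have : Tr.card ≤ Fintype.card (Fin L × Fin L × Fin L) := card_le_univ _
    rw [Fintype.card_prod, Fintype.card_prod, Fintype.card_fin] at this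
    have h2 : Tr.card ≤ L ^ 3 := by rw [pow_succ, pow_two]; linarith [this, mul_assoc L L L]
    exact_mod_cast h2
  calc (Fintype.card S : ℝ) ^ 3 * ((univ.filter fun f : Fin L → S => ¬ Equivalence (RL r f)).card : ℝ)
      ≤ (Fintype.card S : ℝ) ^ 3 * ∑ q ∈ Tr,
          ((univ.filter fun f : Fin L → S => X (f ∘ ![q.1, q.2.1, q.2.2])).card : ℝ) := by
        refine mul_le_mul_of_nonneg_left ?_ (by positivity)
        exact_mod_cast (card_le_card hsub).trans card_biUnion_le
    _ = ∑ q ∈ Tr, (Fintype.card S : ℝ) ^ 3 *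
          ((univ.filter fun f : Fin L → S => X (f ∘ ![q.1, q.2.1, q.2.2])).card : ℝ) := by rw [mul_sum]
    _ ≤ ∑ _q ∈ Tr, (Fintype.card S : ℝ) ^ L * ((P3 r : ℝ) + (Fintype.card S : ℝ) ^ 2) := sum_le_sum hc
    _ = (Tr.card : ℝ) * ((Fintype.card S : ℝ) ^ L * ((P3 r : ℝ) + (Fintype.card S : ℝ) ^ 2)) := by
        rw [sum_const, nsmul_eq_mul]
    _ ≤ (L : ℝ) ^ 3 * ((Fintype.card S : ℝ) ^ L * ((P3 r : ℝ) + (Fintype.card S : ℝ) ^ 2)) :=
        mul_le_mul_of_nonneg_right hTc (by positivity)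

theorem starf (h1 : S_EQUI) : S_STARF := by
  intro S _ _ r hs hir L hL
  set N : ℝ := (Fintype.card S : ℝ) with hN
  have hN0 : 0 < N := by rw [hN]; exact_mod_cast Fintype.card_pos
  have hL0 : (0 : ℝ) < L := by exact_mod_cast hL
  set G : ℝ := ∑ g : Fin 6 → S, Psi r g with hG
  set W : ℝ := ∑ f : Fin L → S, ∑ ι : Fin 6 → Fin L, Psi (RL r f) ι with hW
  -- lower bound
  set b : ℝ := ((univ.filter fun f : Fin L → S => ¬ Equivalence (RL r f)).card : ℝ) with hb
  have hc6 : (Fintype.card (Fin 6 → Fin L) : ℝ) = (L : ℝ) ^ 6 := by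
    rw [Fintype.card_fun, Fintype.card_fin, Fintype.card_fin]; push_cast; ring
  have hlow : -((L : ℝ) ^ 6 * b) ≤ W := by
    have h2 : ∀ f : Fin L → S, (if ¬ Equivalence (RL r f) then -((L : ℝ) ^ 6) else 0) ≤
        ∑ ι : Fin 6 → Fin L, Psi (RL r f) ι := by
      intro f
      by_cases h : Equivalence (RL r f)
      · rw [if_neg (not_not.2 h)]
        exact h1 L (RL r f) hL h
      · rw [if_pos h]
        have : ∑ ι : Fin 6 → Fin L, (-1 : ℝ) ≤ ∑ ι : Fin 6 → Fin L, Psi (RL r f) ι :=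
          sum_le_sum fun ι _ => (psi_bd _ ι).1
        rw [sum_const, card_univ, nsmul_eq_mul, hc6] at this
        linarith
    have h3 := sum_le_sum fun (f : Fin L → S) (_ : f ∈ (univ : Finset (Fin L → S))) => h2 f
    rw [← hW, ← sum_filter, sum_const, nsmul_eq_mul] at h3
    linarith
  -- upper bound
  have hWs : W = ∑ ι : Fin 6 → Fin L, ∑ f : Fin L → S, Psi (RL r f) ι := by rw [hW, sum_comm]
  set d : ℝ := ((univ.filter fun ι : Fin 6 → Fin L => ¬ Function.Injective ι).card : ℝ) with hd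
  have hd0 : 0 ≤ d := by positivity
  have hdL : d ≤ 15 * (L : ℝ) ^ 5 := not_inj_card L hL
  have hGb : -(N ^ 6) ≤ G := by
    have : ∑ g : Fin 6 → S, (-1 : ℝ) ≤ G := sum_le_sum fun g _ => (psi_bd _ g).1
    rw [sum_const, card_univ, nsmul_eq_mul, Fintype.card_fun, Fintype.card_fin] at this
    push_cast at this
    linarith
  have hup : N ^ 6 * W ≤ N ^ L * ((L : ℝ) ^ 6 * G + 2 * d * N ^ 6) := by
    have h2 : ∀ ι : Fin 6 → Fin L, N ^ 6 * ∑ f : Fin L → S, Psi (RL r f) ι ≤
        N ^ L * G + (if ¬ Function.Injective ι then 2 * N ^ 6 * N ^ L else 0) := by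
      intro ι
      by_cases h : Function.Injective ι
      · rw [if_neg (not_not.2 h)]
        have h3 : ∑ f : Fin L → S, Psi (RL r f) ι = ∑ f : Fin L → S, Psi r (f ∘ ι) :=
          sum_congr rfl fun f _ => psi_RL r f h
        rw [h3, marg ι h (Psi r), add_zero]
      · rw [if_pos h]
        have h3 : ∑ f : Fin L → S, Psi (RL r f) ι ≤ N ^ L := by
          have : ∑ f : Fin L → S, Psi (RL r f) ι ≤ ∑ f : Fin L → S, (1 : ℝ) :=
            sum_le_sum fun f _ => (psi_bd _ ι).2
          rw [sum_const, card_univ, nsmul_eq_mul, Fintype.card_fun, Fintype.card_fin] at this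
          push_cast at this
          linarith
        have h4 : N ^ 6 * ∑ f : Fin L → S, Psi (RL r f) ι ≤ N ^ 6 * N ^ L :=
          mul_le_mul_of_nonneg_left h3 (by positivity)
        have h5 : N ^ L * -(N ^ 6) ≤ N ^ L * G := mul_le_mul_of_nonneg_left hGb (by positivity)
        linarith
    have h3 := sum_le_sum fun (ι : Fin 6 → Fin L) (_ : ι ∈ (univ : Finset (Fin 6 → Fin L))) => h2 ι
    rw [← mul_sum, ← hWs, sum_add_distrib, ← sum_filter, sum_const, sum_const, nsmul_eq_mul, nsmul_eq_mul,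
      card_univ, hc6] at h3
    calc N ^ 6 * W ≤ _ := h3
      _ = N ^ L * ((L : ℝ) ^ 6 * G + 2 * d * N ^ 6) := by rw [hd]; ring
  have hbad := bad_card r hs L
  rw [← hN, ← hb] at hbad
  -- combination
  have hNL : 0 < N ^ L := by positivity
  have e1 : -((L : ℝ) ^ 6 * ((L : ℝ) ^ 3 * (N ^ L * ((P3 r : ℝ) + N ^ 2)))) * N ^ 3 ≤ N ^ 6 * W := by
    have h2 : N ^ 6 * -((L : ℝ) ^ 6 * b) ≤ N ^ 6 * W := mul_le_mul_of_nonneg_left hlow (by positivity)
    have h3 : (L : ℝ) ^ 6 * N ^ 3 * (N ^ 3 * b) ≤ (L : ℝ) ^ 6 * N ^ 3 * ((L : ℝ) ^ 3 * (N ^ L * ((P3 r : ℝ) + N ^ 2))) :=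
      mul_le_mul_of_nonneg_left hbad (by positivity)
    nlinarith [h2, h3]
  have e2 : N ^ L * (-((L : ℝ) ^ 9 * ((P3 r : ℝ) + N ^ 2) * N ^ 3)) ≤
      N ^ L * ((L : ℝ) ^ 6 * G + 2 * d * N ^ 6) := by
    calc N ^ L * (-((L : ℝ) ^ 9 * ((P3 r : ℝ) + N ^ 2) * N ^ 3))
        = -((L : ℝ) ^ 6 * ((L : ℝ) ^ 3 * (N ^ L * ((P3 r : ℝ) + N ^ 2)))) * N ^ 3 := by ring
      _ ≤ N ^ 6 * W := e1
      _ ≤ _ := hup
  have e3 := le_of_mul_le_mul_left e2 hNL
  have e4 : 2 * d * N ^ 6 ≤ 30 * (L : ℝ) ^ 5 * N ^ 6 := by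
    have := mul_le_mul_of_nonneg_right hdL (by positivity : (0 : ℝ) ≤ 2 * N ^ 6)
    linarith
  have e5 : (L : ℝ) ^ 6 * (-(N ^ 6 * ((L : ℝ) ^ 3 * ((P3 r : ℝ) / N ^ 3 + 1 / N) + 30 / L))) =
      -((L : ℝ) ^ 9 * ((P3 r : ℝ) + N ^ 2) * N ^ 3) - 30 * (L : ℝ) ^ 5 * N ^ 6 := by
    field_simp
    ring
  have e6 : (L : ℝ) ^ 6 * (-(N ^ 6 * ((L : ℝ) ^ 3 * ((P3 r : ℝ) / N ^ 3 + 1 / N) + 30 / L))) ≤ (L : ℝ) ^ 6 * G := by
    rw [e5]; linarith
  exact le_of_mul_le_mul_left e6 (by positivity)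

end Pool.Agent.Helper19.PlzA
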